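import Pool.Agent.N878.Cusp.Free
import Pool.Agent.N212.Stm

/-!
Perfect complexes on a locally noetherian quasi-compact scheme form a thick subcategory.
-/

set_option autoImplicit false

universe u

open CategoryTheory Limits TopologicalSpace AlgebraicGeometry Opposite Pretriangulated
open ZeroObject

namespace Pool.Agent.N878.Cusp

open Pool.Agent.W506 Pool.Agent.W456 Pool.Agent.R924

set_option backward.isDefEq.respectTransparency false

attribute [local instance] HasDerivedCategory.standard Abelian.hasFiniteBiproducts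

variable {X : Scheme.{u}}

theorem exists_isFF {W : Scheme.{u}} [IsLocallyNoetherian W] (h : W ⟶ X) [IsOpenImmersion h]
    (w : W) {M : W.Modules} (hM : CohAll M)
    (hp : Module.Projective (X.presheaf.stalk (h w)) ((sF h w).obj M)) :
    ∃ (V : W.Opens) (_ : w ∈ V), IsFF ((Scheme.Modules.restrictFunctor V.ι).obj M) := by
  obtain ⟨U, hU, hwU, -⟩ := exists_affine_le (V := (⊤ : W.Opens)) (x := w) trivial
  have hp' : Module.Projective (W.presheaf.stalk w) ((stalkF W w).obj M) :=
    proj_of_restrictScalars (h.stalkMap w).hom (stalkMap_bijective h w) _ hp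
  obtain ⟨hq, hf⟩ := hM U hU
  have hN : IsNoetherianRing Γ(W, U) := IsLocallyNoetherian.component_noetherian ⟨U, hU⟩
  have hfp : Module.FinitePresentation Γ(W, U) Γ(M, U) := Module.finitePresentation_of_finite _ _
  obtain ⟨V, hwV, -, n, e, he⟩ := exists_basis_of_stalk hU hq hfp w hwU hp'
  obtain ⟨i⟩ := exists_iso_free he
  exact ⟨V, hwV, (isFF_FR V.toScheme n).of_iso i.symm⟩

/-- Bounded coherent complexes whose stalks have no morphisms to modules in low degrees. -/
theorem coneGood_of_van [IsLocallyNoetherian X] {E : DerivedCategory X.Modules} (hE : DCoh E)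
    (hv : ∀ x : X, ∃ a : ℤ, Van ((stD X x).obj E) a) : ConeGood X E := by
  apply coneGood_of_local
  intro x
  obtain ⟨a₀, n, h1, h2⟩ := hE.bdd
  obtain ⟨a₁, ha₁⟩ := hv x
  let a := min a₀ a₁
  have ha0 : a ≤ a₀ := min_le_left _ _
  have hv' : Van ((stD X x).obj E) a := ha₁.mono (min_le_right _ _)
  obtain ⟨c, hc⟩ := Int.eq_ofNat_of_zero_le (a := a₀ + n - a) (by lia)
  obtain ⟨W, h, hh, w, M, T, hw, hM, hT, ⟨e₁⟩, ⟨e₂⟩, hPQ⟩ := star a c x E hE.coh
    (fun i hi => h1 i (by lia)) (fun i hi => h2 i (by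
      have : a + (c : ℤ) = a₀ + n := by
        have : ((Int.ofNat c : ℤ)) = (c : ℤ) := rfl
        lia
      lia))
  subst hw
  have hWn : IsLocallyNoetherian W := isLocallyNoetherian_of_isOpenImmersion h
  have hp : Module.Projective (X.presheaf.stalk (h w)) ((sF h w).obj M) := by
    obtain ⟨j⟩ := stD_iso h w E
    obtain ⟨j'⟩ := mapD_single (sF h w) M a
    have v1 : Van ((sF h w).mapDerivedCategory.obj T.obj₁) a :=
      hv'.of_iso (j.symm ≪≫ ((sF h w).mapDerivedCategory.mapIso e₁.symm))
    have v2 : Van ((sF h w).mapDerivedCategory.obj T.obj₂) a :=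
      Van.mid _ ((sF h w).mapDerivedCategory.map_distinguished _ hT) v1 (hPQ.van h w)
    exact proj_of_van (v2.of_iso ((sF h w).mapDerivedCategory.mapIso e₂ ≪≫ j'))
  obtain ⟨V, hwV, hFF⟩ := exists_isFF h w hM hp
  refine ⟨V.toScheme, V.ι ≫ h, inferInstance, ⟨w, hwV⟩, ?_, ?_⟩
  · rw [Scheme.Hom.comp_apply]
    rfl
  · have t2 : ConeGood V.toScheme ((resD V.ι).obj T.obj₂) := by
      obtain ⟨j'⟩ := mapD_single (Scheme.Modules.restrictFunctor V.ι) M a
      have h1 := (ConeGood _).le_shift (-a) _ (coneGood_isFF hFF)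
      exact (ConeGood _).prop_of_iso (((resD V.ι).mapIso e₂) ≪≫ j' ≪≫ singleIsoShift _ a).symm h1
    have t3 : ConeGood V.toScheme ((resD V.ι).obj T.obj₃) := (hPQ.res V.ι).coneGood
    have t1 : ConeGood V.toScheme ((resD V.ι).obj T.obj₁) :=
      (ConeGood _).ext_of_isTriangulatedClosed₁ _ ((resD V.ι).map_distinguished _ hT) t2 t3
    obtain ⟨r⟩ := resD_comp V.ι h (V.ι ≫ h) rfl E
    exact (ConeGood _).prop_of_iso ((resD V.ι).mapIso e₁ ≪≫ r) t1

theorem van_of_isPerfect {E : DerivedCategory X.Modules} (hE : isPerfect X E) (x : X) :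
    ∃ a : ℤ, Van ((stD X x).obj E) a := by
  obtain ⟨P, a, b, hP, ⟨e⟩⟩ := Pool.Agent.W456.isPerfect.stalk hE x
  exact ⟨a, (van_perfIn hP).of_iso e.symm⟩

variable [CompactSpace X] [IsLocallyNoetherian X]

theorem coneGood_of_retract {E P : DerivedCategory X.Modules} (r : Retract E P)
    (hP : isPerfect X P) : ConeGood X E := by
  apply coneGood_of_van ((dCoh_of_isPerfect hP).retract r)
  intro x
  obtain ⟨a, ha⟩ := van_of_isPerfect hP x
  exact ⟨a, ha.retract (r.map (stD X x))⟩

theorem isPerfect_eq_coneGood' : isPerfect X = ConeGood X := by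
  apply le_antisymm
  · intro E hE
    exact coneGood_of_retract (Retract.refl E) hE
  · intro E hE
    exact hE.isPerfect

/-- Perfect complexes form a triangulated subcategory closed under retracts. -/
theorem stmThick : Pool.Agent.N212.StmThick := by
  intro X hX hX'
  constructor
  · rw [isPerfect_eq_coneGood']
    infer_instance
  · exact ⟨fun r hE => (coneGood_of_retract r hE).isPerfect⟩

end Pool.Agent.N878.Cusp
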