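import Pool.Agent.R924.P6

/-!
Extensions of coherent modules are coherent; cones of objects with coherent cohomology.
-/

set_option autoImplicit false

universe u

open CategoryTheory Limits TopologicalSpace AlgebraicGeometry Opposite Pretriangulated

namespace Pool.Agent.N878.Cusp

open Pool.Agent.W506 Pool.Agent.W456 Pool.Agent.R924

set_option backward.isDefEq.respectTransparency false

attribute [local instance] HasDerivedCategory.standard Abelian.hasFiniteBiproducts

variable {X : Scheme.{u}}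

lemma qcOn_ext (S : ShortComplex X.Modules) (hS : S.ShortExact) {W : X.Opens}
    (h₁ : QCOn S.X₁ W) (h₃ : QCOn S.X₃ W) : QCOn S.X₂ W := by
  have := hS.mono_f
  have hz : ∀ (U : X.Opens) (a : Γ(S.X₁, U)), ap S.g U (ap S.f U a) = 0 := by
    intro U a
    rw [← ap_comp, S.zero]
    rfl
  constructor
  · intro W' hW' hle f s
    obtain ⟨k, t₃, ht₃⟩ := h₃.ext W' hW' hle f (ap S.g _ s)
    obtain ⟨t₂, rfl⟩ := ap_surjective_of_sumOn S hS h₁.sumOn hW' hle t₃
    have h1 : ap S.g _ (rs S.X₂ (X.basicOpen_le f) t₂ - ro (X.basicOpen_le f) f ^ k • s) = 0 := by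
      rw [map_sub, ap_rs, ht₃, map_smul, sub_self]
    obtain ⟨a, ha⟩ := ap_exact S hS.exact _ _ h1
    obtain ⟨l, a', ha'⟩ := h₁.ext W' hW' hle f a
    refine ⟨l + k, f ^ l • t₂ - ap S.f _ a', ?_⟩
    rw [map_sub, ← ap_rs, ha', (ap S.f _).map_smul, ha, rs_smul, map_pow, smul_sub,
      sub_sub_cancel, smul_smul, ← pow_add]
  · intro W' hW' hle f t ht
    obtain ⟨k, hk⟩ := h₃.uniq W' hW' hle f (ap S.g _ t) (by rw [← ap_rs, ht, map_zero])
    rw [← map_smul] at hk
    obtain ⟨a, ha⟩ := ap_exact S hS.exact _ _ hk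
    have h2 : rs S.X₁ (X.basicOpen_le f) a = 0 := by
      apply ap_injective S.f
      rw [ap_rs, ha, rs_smul, ht, smul_zero, map_zero]
    obtain ⟨l, hl⟩ := h₁.uniq W' hW' hle f a h2
    refine ⟨l + k, ?_⟩
    rw [pow_add, mul_smul, ← ha, ← map_smul, hl, map_zero]

lemma CohAll_ext {S : ShortComplex X.Modules} (hS : S.ShortExact) (h₁ : CohAll S.X₁)
    (h₃ : CohAll S.X₃) : CohAll S.X₂ := by
  intro W hW
  have f1 := (h₁ W hW).2
  have f3 := (h₃ W hW).2
  refine ⟨qcOn_ext S hS (h₁ W hW).1 (h₃ W hW).1, ?_⟩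
  have := hS.mono_f
  have hex : Function.Exact (ap S.f W) (ap S.g W) := by
    intro s
    constructor
    · intro hs
      exact ap_exact S hS.exact _ _ hs
    · rintro ⟨a, rfl⟩
      rw [← ap_comp, S.zero]
      rfl
  have hsurj := ap_surjective_of_sumOn S hS (h₁ W hW).1.sumOn hW le_rfl
  have hk : Module.Finite Γ(X, W) (LinearMap.ker (ap S.g W)) := by
    rw [Module.Finite.iff_fg, LinearMap.exact_iff.1 hex, LinearMap.range_eq_map]
    exact Submodule.FG.map _ (Module.finite_def.1 f1)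
  have : Module.Finite Γ(X, W) (Γ(S.X₂, W) ⧸ LinearMap.ker (ap S.g W)) :=
    Module.Finite.equiv ((ap S.g W).quotKerEquivOfSurjective hsurj).symm
  exact Module.Finite.of_submodule_quotient (LinearMap.ker (ap S.g W))

/-- Coherence restricts to open subschemes. -/
theorem cohAll_restrict {M : X.Modules} (h : CohAll M) (U : X.Opens) :
    CohAll (M.restrict U.ι) := by
  have hb : ∀ (W' : U.toScheme.Opens) (f : Γ(U.toScheme, W')),
      X.basicOpen (show Γ(X, U.ι ''ᵁ W') from f) = U.ι ''ᵁ (U.toScheme.basicOpen f) := by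
    intro W' f
    rw [Scheme.image_basicOpen, Scheme.Opens.ι_appIso]
    rfl
  intro W hW
  have hWi : IsAffineOpen (U.ι ''ᵁ W) := hW.image_of_isOpenImmersion U.ι
  obtain ⟨hq, hf⟩ := h _ hWi
  refine ⟨⟨fun W' hW' hle f s => ?_, fun W' hW' hle f t ht => ?_⟩, ?_⟩
  · obtain ⟨k, t, ht⟩ := hq.ext' (hW'.image_of_isOpenImmersion U.ι) (U.ι.image_mono hle)
      (show Γ(X, U.ι ''ᵁ W') from f) (hb W' f) (U.ι.image_mono (U.toScheme.basicOpen_le f)) s
    refine ⟨k, t, ?_⟩
    rw [restrict_smul_ι]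
    exact ht
  · obtain ⟨k, hk⟩ := hq.uniq' (hW'.image_of_isOpenImmersion U.ι) (U.ι.image_mono hle)
      (show Γ(X, U.ι ''ᵁ W') from f) (hb W' f) (U.ι.image_mono (U.toScheme.basicOpen_le f)) t ht
    refine ⟨k, ?_⟩
    rw [restrict_smul_ι]
    exact hk
  · obtain ⟨S, hS⟩ := hf.1
    let S' : Finset Γ(M.restrict U.ι, W) := S
    refine ⟨S', ?_⟩
    rw [eq_top_iff]
    intro m _
    have key : ∀ s : Γ(M, U.ι ''ᵁ W), s ∈ Submodule.span Γ(X, U.ι ''ᵁ W)
        (S : Set Γ(M, U.ι ''ᵁ W)) → (show Γ(M.restrict U.ι, W) from s) ∈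
          Submodule.span Γ(U.toScheme, W) (S' : Set Γ(M.restrict U.ι, W)) := by
      intro s hs
      induction hs using Submodule.span_induction with
      | mem x hx => exact Submodule.subset_span hx
      | zero => exact zero_mem _
      | add x y _ _ hx hy => exact add_mem hx hy
      | smul a x _ hx =>
        have h1 := Submodule.smul_mem _ (show Γ(U.toScheme, W) from a) hx
        rw [restrict_smul_ι] at h1
        exact h1
    exact key m (by rw [hS]; trivial)

variable [IsLocallyNoetherian X]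

/-- The middle term of an exact sequence with four coherent neighbours. -/
lemma cohAll_five {Z A B C D : X.Modules} (e : Z ⟶ A) (f : A ⟶ B) (g : B ⟶ C) (h : C ⟶ D)
    (hef : e ≫ f = 0) (hfg : f ≫ g = 0) (hgh : g ≫ h = 0)
    (h1 : (ShortComplex.mk e f hef).Exact) (h2 : (ShortComplex.mk f g hfg).Exact)
    (h3 : (ShortComplex.mk g h hgh).Exact)
    (hZ : CohAll Z) (hA : CohAll A) (hC : CohAll C) (hD : CohAll D) : CohAll B := by
  have k1 : CohAll (cokernel e) := hZ.cokernel e hA
  have k2 : CohAll (kernel h) := hC.ker h hD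
  let f' : cokernel e ⟶ B := cokernel.desc e f hef
  let g' : B ⟶ kernel h := kernel.lift h g hgh
  have m1 : Mono f' := h1.mono_cokernelDesc
  have m2 : Epi g' := h3.epi_kernelLift
  have w : f' ≫ g' = 0 := by
    rw [← cancel_epi (cokernel.π e), ← cancel_mono (kernel.ι h)]
    simp [f', g', hfg]
  have hS : (ShortComplex.mk f' g' w).ShortExact :=
    { exact := by
        let S₁ : ShortComplex X.Modules := ShortComplex.mk f g hfg
        let S₂ : ShortComplex X.Modules := ShortComplex.mk f' g (by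
          rw [← cancel_epi (cokernel.π e)]
          simp [f', hfg])
        let a : S₁ ⟶ S₂ := { τ₁ := cokernel.π e, τ₂ := 𝟙 _, τ₃ := 𝟙 _ }
        have : Epi a.τ₁ := inferInstanceAs (Epi (cokernel.π e))
        have : IsIso a.τ₂ := inferInstanceAs (IsIso (𝟙 _))
        have : Mono a.τ₃ := inferInstanceAs (Mono (𝟙 _))
        have e1 : S₂.Exact := (ShortComplex.exact_iff_of_epi_of_isIso_of_mono a).1 h2
        let b : ShortComplex.mk f' g' w ⟶ S₂ := { τ₁ := 𝟙 _, τ₂ := 𝟙 _, τ₃ := kernel.ι h }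
        have : Epi b.τ₁ := inferInstanceAs (Epi (𝟙 _))
        have : IsIso b.τ₂ := inferInstanceAs (IsIso (𝟙 _))
        have : Mono b.τ₃ := inferInstanceAs (Mono (kernel.ι h))
        exact (ShortComplex.exact_iff_of_epi_of_isIso_of_mono b).2 e1
      mono_f := m1
      epi_g := m2 }
  exact CohAll_ext hS k1 k2

/-- The cone of a morphism of objects with coherent cohomology has coherent cohomology. -/
theorem cohAll_cone (T : Triangle (DerivedCategory X.Modules))
    (hT : T ∈ distTriang (DerivedCategory X.Modules)) (h₁ : ∀ i, CohAll (Hh i T.obj₁))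
    (h₂ : ∀ i, CohAll (Hh i T.obj₂)) (i : ℤ) : CohAll (Hh i T.obj₃) :=
  cohAll_five _ _ _ _ _ _ _
    (DerivedCategory.HomologySequence.exact₂ T hT i)
    (DerivedCategory.HomologySequence.exact₃ T hT i (i + 1) rfl)
    (DerivedCategory.HomologySequence.exact₁ T hT i (i + 1) rfl)
    (h₁ i) (h₂ i) (h₁ (i + 1)) (h₂ (i + 1))

end Pool.Agent.N878.Cusp
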