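import Pool.Agent.N878.Cusp.Star

/-!
Coherent modules with projective stalks are locally free.
-/

set_option autoImplicit false

universe u v v'

open CategoryTheory Limits TopologicalSpace AlgebraicGeometry Opposite

namespace Pool.Agent.N878.Cusp

open Pool.Agent.W506 Pool.Agent.W456 Pool.Agent.R924

open Module in
lemma exists_local_basis' {R : Type u} [CommRing R] {P : Type v} [AddCommGroup P] [Module R P]
    [Module.FinitePresentation R P] (p : Ideal R) [p.IsPrime] (R' : Type u) [CommRing R']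
    [Algebra R R'] [IsLocalization.AtPrime R' p] {P' : Type v'} [AddCommGroup P'] [Module R P']
    [Module R' P'] [IsScalarTower R R' P'] (g : P →ₗ[R] P') [IsLocalizedModule p.primeCompl g]
    [Module.Projective R' P'] :
    ∃ (r : R) (_ : r ∉ p) (n : ℕ) (e : Fin n → P),
      (∀ a : Fin n → R, ∑ i, a i • e i = 0 → ∃ k : ℕ, ∀ i, r ^ k * a i = 0) ∧
      (∀ x : P, ∃ (k : ℕ) (a : Fin n → R), r ^ k • x = ∑ i, a i • e i) := by
  classical
  have hl : IsLocalRing R' := IsLocalization.AtPrime.isLocalRing R' p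
  have hfin : Module.Finite R' P' := Module.Finite.of_isLocalizedModule p.primeCompl (Rₚ := R') g
  have h1 : Module.Free R' P' := Module.free_of_flat_of_isLocalRing
  obtain ⟨r, hr, b', -⟩ := Module.FinitePresentation.exists_basis_localizedModule_powers
    p.primeCompl g R' (Module.finBasis R' P')
  let n := Module.finrank R' P'
  let f := LocalizedModule.mkLinearMap (Submonoid.powers r) P
  have h2 : ∀ i, ∃ (e : P) (k : ℕ), r ^ k • b' i = f e := by
    intro i
    obtain ⟨⟨e, s⟩, hs⟩ := IsLocalizedModule.surj (Submonoid.powers r) f (b' i)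
    obtain ⟨_, k, rfl⟩ := s
    exact ⟨e, k, hs⟩
  choose e k he using h2
  have hunit : ∀ m : ℕ, IsUnit (algebraMap R (Localization (Submonoid.powers r)) (r ^ m)) :=
    fun m => IsLocalization.map_units (M := Submonoid.powers r) _ ⟨r ^ m, m, rfl⟩
  refine ⟨r, hr, n, e, ?_, ?_⟩
  · intro a ha
    have h3 : ∑ i, (algebraMap R (Localization (Submonoid.powers r)) (a i * r ^ k i)) • b' i =
        0 := by
      have h4 := congrArg f ha
      rw [map_zero, map_sum] at h4
      rw [← h4]
      refine Finset.sum_congr rfl fun i _ => ?_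
      rw [map_smul, ← he, algebraMap_smul, mul_smul]
    have h5 := Fintype.linearIndependent_iff.1 b'.linearIndependent _ h3
    have h6 : ∀ i, ∃ m : ℕ, r ^ m * a i = 0 := by
      intro i
      obtain ⟨⟨_, m, rfl⟩, hm⟩ := (IsLocalization.map_eq_zero_iff (Submonoid.powers r)
        (Localization (Submonoid.powers r)) _).1 (h5 i)
      exact ⟨m + k i, by rw [pow_add, mul_assoc, mul_comm (r ^ k i)]; exact hm⟩
    choose m hm using h6
    refine ⟨∑ i, m i, fun i => ?_⟩
    rw [← Finset.add_sum_erase _ _ (Finset.mem_univ i), add_comm, pow_add, mul_assoc, hm, mul_zero]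
  · intro x
    have h3 := b'.sum_repr (f x)
    obtain ⟨⟨_, m, rfl⟩, hm⟩ := IsLocalization.exist_integer_multiples_of_finset
      (Submonoid.powers r) (Finset.univ.image (fun i => b'.repr (f x) i))
    have h4 : ∀ i, ∃ c : R, algebraMap R (Localization (Submonoid.powers r)) c =
        (r ^ m) • b'.repr (f x) i := fun i => hm _ (Finset.mem_image_of_mem _ (Finset.mem_univ i))
    choose c hc using h4
    let K := ∑ i, k i
    have hK : ∀ i, ∃ l, K = l + k i := fun i => ⟨∑ j ∈ Finset.univ.erase i, k j, by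
      rw [add_comm]; exact (Finset.add_sum_erase _ _ (Finset.mem_univ i)).symm⟩
    choose l hl using hK
    have h5 : f (r ^ (K + m) • x) = f (∑ i, (c i * r ^ (l i)) • e i) := by
      rw [map_smul, map_sum, ← h3, Finset.smul_sum]
      refine Finset.sum_congr rfl fun i _ => ?_
      rw [map_smul, ← he, smul_smul]
      have h6 : c i * r ^ l i * r ^ k i = c i * r ^ K := by rw [hl i, pow_add, mul_assoc]
      rw [h6, mul_comm, mul_smul, ← algebraMap_smul (Localization (Submonoid.powers r)) (c i),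
        hc, pow_add, mul_smul, smul_assoc]
    rw [← sub_eq_zero, ← map_sub] at h5
    obtain ⟨⟨_, q, rfl⟩, hq⟩ := (IsLocalizedModule.eq_zero_iff (Submonoid.powers r) f).1 h5
    refine ⟨q + (K + m), fun i => r ^ q * (c i * r ^ l i), ?_⟩
    have h7 : r ^ q • (r ^ (K + m) • x - ∑ i, (c i * r ^ l i) • e i) = 0 := hq
    rw [smul_sub, sub_eq_zero, smul_smul, ← pow_add] at h7
    rw [h7, Finset.smul_sum]
    exact Finset.sum_congr rfl fun i _ => by rw [smul_smul]

theorem proj_of_restrictScalars {R S : Type u} [CommRing R] [CommRing S] (φ : R →+* S)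
    (hφ : Function.Bijective φ) (M : ModuleCat.{u} S)
    (h : Module.Projective R ((ModuleCat.restrictScalars φ).obj M : ModuleCat.{u} R)) :
    Module.Projective S M := by
  have h2 : (ModuleCat.restrictScalars φ).IsEquivalence :=
    ModuleCat.restrictScalars_isEquivalence_of_ringEquiv (RingEquiv.ofBijective φ hφ)
  have h3 : Projective ((ModuleCat.restrictScalars φ).obj M) :=
    (IsProjective.iff_projective ((ModuleCat.restrictScalars φ).obj M)).1 h
  have h1 : Projective M := ((ModuleCat.restrictScalars φ).asEquivalence.map_projective_iff M).1 h3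
  exact (IsProjective.iff_projective M).2 h1

variable {X : Scheme.{u}}

lemma germ_rs {N : X.Modules} {U V : X.Opens} (h : U ≤ V) (x : X) (hx : x ∈ U) (s : Γ(N, V)) :
    N.presheaf.germ U x hx (rs N h s) = N.presheaf.germ V x (h hx) s :=
  TopCat.Presheaf.germ_res_apply N.presheaf (homOfLE h) x hx s

lemma germ_ro {U V : X.Opens} (h : U ≤ V) (x : X) (hx : x ∈ U) (s : Γ(X, V)) :
    X.presheaf.germ U x hx (ro h s) = X.presheaf.germ V x (h hx) s :=
  TopCat.Presheaf.germ_res_apply X.presheaf (homOfLE h) x hx s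

lemma exists_rs_eq_zero {N : X.Modules} {U : X.Opens} (x : X) (hx : x ∈ U) (s : Γ(N, U))
    (h : N.presheaf.germ U x hx s = 0) : ∃ (V : X.Opens) (hV : V ≤ U) (_ : x ∈ V),
      rs N hV s = 0 := by
  obtain ⟨W, hW, iU, iV, heq⟩ := TopCat.Presheaf.germ_eq N.presheaf x hx hx s 0
    (by rw [h, map_zero])
  refine ⟨W, iU.le, hW, ?_⟩
  have h1 : rs N iU.le s = rs N iV.le 0 := heq
  rw [h1, map_zero]

/-- Sections over an affine open subset localise to the stalks. -/
lemma exists_basis_of_stalk {N : X.Modules} {W : X.Opens} (hW : IsAffineOpen W)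
    (hN : QCOn N W) (hfp : Module.FinitePresentation Γ(X, W) Γ(N, W)) (x : X) (hx : x ∈ W)
    (hp : Module.Projective (X.presheaf.stalk x) ((stalkF X x).obj N)) :
    ∃ (U : X.Opens) (_ : x ∈ U) (_ : U ≤ W) (n : ℕ) (e : Fin n → Γ(N, U)), IsBasisOn e := by
  let _ : Algebra Γ(X, W) (X.presheaf.stalk x) := (X.presheaf.germ W x hx).hom.toAlgebra
  have hloc : IsLocalization.AtPrime (X.presheaf.stalk x) (hW.primeIdealOf ⟨x, hx⟩).asIdeal :=
    hW.isLocalization_stalk ⟨x, hx⟩
  let _ : Module Γ(X, W) ((stalkF X x).obj N) :=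
    Module.compHom _ (X.presheaf.germ W x hx).hom
  have htow : IsScalarTower Γ(X, W) (X.presheaf.stalk x) ((stalkF X x).obj N) :=
    IsScalarTower.of_algebraMap_smul fun r m => rfl
  let g : Γ(N, W) →ₗ[Γ(X, W)] (stalkF X x).obj N :=
    { toFun := fun s => N.presheaf.germ W x hx s
      map_add' := fun s t => map_add (N.presheaf.germ W x hx).hom s t
      map_smul' := fun r s => germ_smul N x W hx r s }
  have hmem : ∀ r : Γ(X, W), x ∈ X.basicOpen r ↔
      r ∈ (hW.primeIdealOf ⟨x, hx⟩).asIdeal.primeCompl := by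
    intro r
    rw [X.mem_basicOpen r x hx]
    exact IsLocalization.AtPrime.isUnit_to_map_iff (X.presheaf.stalk x)
      (hW.primeIdealOf ⟨x, hx⟩).asIdeal r
  have hg : IsLocalizedModule (hW.primeIdealOf ⟨x, hx⟩).asIdeal.primeCompl g := by
    refine ⟨?_, ?_, ?_⟩
    · intro s
      have hu : IsUnit (algebraMap Γ(X, W) (X.presheaf.stalk x) s.1) :=
        IsLocalization.map_units (M := (hW.primeIdealOf ⟨x, hx⟩).asIdeal.primeCompl) _ s
      rw [Module.End.isUnit_iff]
      obtain ⟨u, hu⟩ := hu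
      constructor
      · intro a b hab
        have h1 : algebraMap Γ(X, W) (X.presheaf.stalk x) s.1 • a =
          algebraMap Γ(X, W) (X.presheaf.stalk x) s.1 • b := hab
        rw [← hu] at h1
        exact (MulAction.injective u) h1
      · intro b
        refine ⟨u⁻¹ • b, ?_⟩
        change algebraMap Γ(X, W) (X.presheaf.stalk x) s.1 • (u⁻¹ • b) = b
        rw [← hu]
        exact smul_inv_smul u b
    · intro y
      obtain ⟨U, hxU, m, rfl⟩ := TopCat.Presheaf.exists_germ_eq (C := Ab.{u}) N.presheaf y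
      obtain ⟨f, hf, hxf⟩ := hW.exists_basicOpen_le (V := U) ⟨x, hxU⟩ hx
      obtain ⟨k, t, ht⟩ := hN.ext W hW le_rfl f (rs N hf m)
      refine ⟨⟨t, ⟨f ^ k, pow_mem ((hmem f).1 hxf) k⟩⟩, ?_⟩
      change X.presheaf.germ W x hx (f ^ k) • (N.presheaf.germ U x hxU m : (stalkF X x).obj N) =
        N.presheaf.germ W x hx t
      rw [← germ_rs (X.basicOpen_le f) x hxf t, ht, germ_smul, germ_rs, ← map_pow, germ_ro]
    · intro s t hst
      have h1 : N.presheaf.germ W x hx (s - t) = 0 := by
        rw [map_sub]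
        exact sub_eq_zero.2 hst
      obtain ⟨V, hV, hxV, hV0⟩ := exists_rs_eq_zero x hx _ h1
      obtain ⟨f, hf, hxf⟩ := hW.exists_basicOpen_le (V := V) ⟨x, hxV⟩ hx
      obtain ⟨k, hk⟩ := hN.uniq W hW le_rfl f (s - t) (by
        rw [← rs_rs hf hV, hV0, map_zero])
      refine ⟨⟨f ^ k, pow_mem ((hmem f).1 hxf) k⟩, ?_⟩
      change f ^ k • s = f ^ k • t
      rwa [smul_sub, sub_eq_zero] at hk
  obtain ⟨r, hr, n, e, hinj, hsurj⟩ := exists_local_basis' (R := Γ(X, W)) (P := Γ(N, W))
    (hW.primeIdealOf ⟨x, hx⟩).asIdeal (X.presheaf.stalk x) g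
  refine ⟨X.basicOpen r, (hmem r).2 hr, X.basicOpen_le r, n,
    fun i => rs N (X.basicOpen_le r) (e i), ?_⟩
  apply isBasisOn_of_local
  intro V hV y hy
  obtain ⟨h, hle, hyh⟩ := hW.exists_basicOpen_le (V := V) ⟨y, hy⟩
    ((hV.trans (X.basicOpen_le r)) hy)
  refine ⟨X.basicOpen h, hle, hle.trans hV, hyh, ?_⟩
  have hur : IsUnit (ro (X.basicOpen_le h) r) := by
    have h1 := (isUnit_ro_basicOpen r).map (ro (hle.trans hV))
    rw [ro_ro] at h1
    exact h1
  have huh := isUnit_ro_basicOpen h
  obtain ⟨u, hu⟩ := hur.exists_left_inv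
  obtain ⟨v, hv⟩ := huh.exists_left_inv
  have hcomb : ∀ a : Fin n → Γ(X, W), rs N (X.basicOpen_le h) (∑ i, a i • e i) =
      comb (fun i => rs N (X.basicOpen_le r) (e i)) (hle.trans hV)
        (fun i => ro (X.basicOpen_le h) (a i)) := by
    intro a
    simp only [comb, map_sum, rs_smul, rs_rs]
  constructor
  · rw [comb_injective_iff]
    intro a ha
    have h1 := fun i => ro_ext hW h (a i)
    choose k b hb using h1
    have hK : ∀ i, ∃ l, ∑ j, k j = l + k i := fun i => ⟨∑ j ∈ Finset.univ.erase i, k j, by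
      rw [add_comm]; exact (Finset.add_sum_erase _ _ (Finset.mem_univ i)).symm⟩
    choose l hl using hK
    have h2 : rs N (X.basicOpen_le h) (∑ i, (h ^ l i * b i) • e i) = 0 := by
      rw [hcomb]
      have h3 : (fun i => ro (X.basicOpen_le h) (h ^ l i * b i)) =
          fun i => ro (X.basicOpen_le h) h ^ (∑ j, k j) * a i := by
        funext i
        rw [map_mul, hb, map_pow, ← mul_assoc, ← pow_add, ← hl]
      rw [h3, comb_smul, ha, smul_zero]
    obtain ⟨q, hq⟩ := hN.uniq W hW le_rfl h _ h2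
    rw [Finset.smul_sum] at hq
    obtain ⟨m, hm⟩ := hinj (fun i => h ^ q * (h ^ l i * b i)) (by
      rw [← hq]
      exact Finset.sum_congr rfl fun i _ => by rw [smul_smul])
    funext i
    have h4 := congrArg (ro (X.basicOpen_le h)) (hm i)
    rw [map_mul, map_mul, map_mul, hb, map_zero, map_pow, map_pow, map_pow,
      ← mul_assoc, ← mul_assoc, ← mul_assoc] at h4
    have h5 : IsUnit (ro (X.basicOpen_le h) r ^ m * ro (X.basicOpen_le h) h ^ q *
      ro (X.basicOpen_le h) h ^ l i * ro (X.basicOpen_le h) h ^ k i) :=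
      (((hur.pow _).mul (huh.pow _)).mul (huh.pow _)).mul (huh.pow _)
    exact h5.mul_right_eq_zero.1 h4
  · intro s
    obtain ⟨k, t, ht⟩ := hN.ext W hW le_rfl h s
    obtain ⟨m, a, ha⟩ := hsurj t
    refine ⟨fun i => (v ^ k * u ^ m) * ro (X.basicOpen_le h) (a i), ?_⟩
    rw [comb_smul, ← hcomb, ← ha, rs_smul, ht, smul_smul, smul_smul, map_pow]
    have h1 : v ^ k * u ^ m * (ro (X.basicOpen_le h) r ^ m * ro (X.basicOpen_le h) h ^ k) =
        (u * ro (X.basicOpen_le h) r) ^ m * (v * ro (X.basicOpen_le h) h) ^ k := by ring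
    rw [mul_assoc, h1, hu, hv, one_pow, one_pow, one_mul, one_smul]

end Pool.Agent.N878.Cusp
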