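import Pool.Agent.R924.P3
import Pool.Agent.W456.Geo2
import Pool.Agent.W456.DGen

/-!
Killing a cohomology object after applying an exact functor.
-/

set_option autoImplicit false

universe w₁ w₂ v₁ v₂ u₁ u₂

open CategoryTheory Limits Pretriangulated

namespace Pool.Agent.N878.Cusp

open Pool.Agent.W456 Pool.Agent.R924

noncomputable section

set_option backward.isDefEq.respectTransparency false

lemma epi_of_conj {A : Type u₁} [Category.{v₁} A] {B : Type u₂} [Category.{v₂} B] (R : A ⥤ B)
    {X X' Y Y' : A} (e₁ : X ≅ X') (e₂ : Y ≅ Y') (f : X ⟶ Y) (g : X' ⟶ Y')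
    (h : f ≫ e₂.hom = e₁.hom ≫ g) (hg : Epi (R.map g)) : Epi (R.map f) := by
  have h1 : f = e₁.hom ≫ g ≫ e₂.inv := by
    rw [← Category.assoc, ← h, Category.assoc, Iso.hom_inv_id, Category.comp_id]
  rw [h1, R.map_comp, R.map_comp]
  exact epi_comp _ _

variable {A : Type u₁} [Category.{v₁} A] [Abelian A] {B : Type u₂} [Category.{v₂} B] [Abelian B]
  (R : A ⥤ B) [R.Additive]

/-- The chain map given by a map to cycles. -/
def ofCyc {L : CochainComplex A ℤ} {b : ℤ} {M : A} (ζ : M ⟶ L.cycles b) : sc b M ⟶ L :=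
  HomologicalComplex.mkHomFromSingle (ζ ≫ L.iCycles b) (by
    intro j _
    rw [Category.assoc, HomologicalComplex.iCycles_d, comp_zero])

lemma epi_homologyMap_ofCyc [PreservesFiniteLimits R] [PreservesFiniteColimits R]
    {L : CochainComplex A ℤ} {b : ℤ} {M : A} (ζ : M ⟶ L.cycles b)
    (h : Epi (R.map (ζ ≫ L.homologyπ b))) :
    Epi (R.map (HomologicalComplex.homologyMap (ofCyc ζ) b)) := by
  have i1 : IsIso ((sc b M).iCycles b) := by
    apply HomologicalComplex.isIso_iCycles _ b (b + 1) (by simp)
    simp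
  have h1 : HomologicalComplex.cyclesMap (ofCyc ζ) b = ((sc b M).iCycles b ≫
      (HomologicalComplex.singleObjXSelf (ComplexShape.up ℤ) b M).hom) ≫ ζ := by
    rw [← cancel_mono (L.iCycles b), HomologicalComplex.cyclesMap_i]
    rw [ofCyc, HomologicalComplex.mkHomFromSingle_f]
    simp only [Category.assoc]
  have h2 : (sc b M).homologyπ b ≫ HomologicalComplex.homologyMap (ofCyc ζ) b =
      ((sc b M).iCycles b ≫ (HomologicalComplex.singleObjXSelf (ComplexShape.up ℤ) b M).hom) ≫
        ζ ≫ L.homologyπ b := by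
    rw [HomologicalComplex.homologyπ_naturality, h1]
    simp only [Category.assoc]
  have h3 : Epi (R.map ((sc b M).homologyπ b) ≫
      R.map (HomologicalComplex.homologyMap (ofCyc ζ) b)) := by
    rw [← R.map_comp, h2, R.map_comp]
    have := h
    exact epi_comp _ _
  exact epi_of_epi (R.map ((sc b M).homologyπ b)) _

variable [HasDerivedCategory.{w₁} A] [HasDerivedCategory.{w₂} B] [PreservesFiniteLimits R]
  [PreservesFiniteColimits R]

/-- Killing a cohomology object. -/
theorem exists_kill (L : CochainComplex A ℤ) (b : ℤ) (M : A) (ζ : M ⟶ L.cycles b)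
    (h : Epi (R.map (ζ ≫ L.homologyπ b))) :
    ∃ T : Triangle (DerivedCategory B), T ∈ (distTriang (DerivedCategory B)) ∧
      Nonempty (T.obj₁ ≅ (DerivedCategory.singleFunctor B b).obj (R.obj M)) ∧
      Nonempty (T.obj₂ ≅ R.mapDerivedCategory.obj (DerivedCategory.Q.obj L)) ∧
      IsZero (Hh b T.obj₃) := by
  obtain ⟨Z, v, w, hT⟩ := Pretriangulated.distinguished_cocone_triangle
    (DerivedCategory.Q.map (ofCyc ζ))
  let T₀ := Triangle.mk (DerivedCategory.Q.map (ofCyc ζ)) v w
  refine ⟨R.mapDerivedCategory.mapTriangle.obj T₀,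
    R.mapDerivedCategory.map_distinguished _ hT, ?_, ⟨Iso.refl _⟩, ?_⟩
  · obtain ⟨e⟩ := mapD_single R M b
    exact ⟨R.mapDerivedCategory.mapIso
      ((DerivedCategory.singleFunctorIsoCompQ A b).app M).symm ≪≫ e⟩
  · have e1 : Epi (R.map ((DerivedCategory.homologyFunctor A b).map T₀.mor₁)) := by
      have h1 : (DerivedCategory.homologyFunctor A b).map T₀.mor₁ =
          (DerivedCategory.homologyFunctorFactors A b).hom.app _ ≫
            HomologicalComplex.homologyMap (ofCyc ζ) b ≫
              (DerivedCategory.homologyFunctorFactors A b).inv.app _ := by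
        rw [← cancel_mono ((DerivedCategory.homologyFunctorFactors A b).hom.app L)]
        have h2 := DerivedCategory.homologyFunctorFactors_hom_naturality (ofCyc ζ) b
        rw [Category.assoc, Category.assoc, Iso.inv_hom_id_app]
        erw [Category.comp_id]
        exact h2
      rw [h1, R.map_comp, R.map_comp]
      have := epi_homologyMap_ofCyc R ζ h
      exact epi_comp _ _
    have e2 : Epi ((DerivedCategory.homologyFunctor A b).map T₀.mor₂) := by
      apply (DerivedCategory.HomologySequence.exact₃ T₀ hT b (b + 1) rfl).epi_f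
      apply IsZero.eq_of_tgt
      exact (HomologicalComplex.isZero_single_obj_homology _ _ _ _ (by lia)).of_iso
        ((DerivedCategory.homologyFunctorFactors A (b + 1)).app (sc b M))
    have e3 : R.map ((DerivedCategory.homologyFunctor A b).map T₀.mor₂) = 0 := by
      rw [← cancel_epi (R.map ((DerivedCategory.homologyFunctor A b).map T₀.mor₁)), comp_zero,
        ← R.map_comp, ← Functor.map_comp, comp_distTriang_mor_zero₁₂ _ hT, Functor.map_zero,
        Functor.map_zero]
    obtain ⟨e⟩ := mapD_homology R T₀.obj₃ b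
    refine IsZero.of_iso ?_ e
    rw [IsZero.iff_id_eq_zero, ← cancel_epi (R.map ((DerivedCategory.homologyFunctor A b).map
      T₀.mor₂)), e3, zero_comp, zero_comp]

end

end Pool.Agent.N878.Cusp
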