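import Pool.Agent.N878.Cusp.PQ
import Pool.Agent.N878.Cusp.Gen

/-!
Local lifting of generators of a cohomology module.
-/

set_option autoImplicit false

universe u

open CategoryTheory Limits TopologicalSpace AlgebraicGeometry Opposite Pretriangulated

namespace Pool.Agent.N878.Cusp

open Pool.Agent.W506 Pool.Agent.W456 Pool.Agent.R924

set_option backward.isDefEq.respectTransparency false

attribute [local instance] HasDerivedCategory.standard Abelian.hasFiniteBiproducts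

variable {X : Scheme.{u}}

/-- Local surjectivity over an open subset. -/
def LocSurj {M N : X.Modules} (φ : M ⟶ N) (V : X.Opens) : Prop :=
  ∀ (V' : X.Opens) (_ : V' ≤ V) (s : Γ(N, V')) (y : X), y ∈ V' →
    ∃ (V'' : X.Opens) (h : V'' ≤ V') (_ : y ∈ V'') (t : Γ(M, V'')), ap φ V'' t = rs N h s

theorem LocSurj.epi {M N : X.Modules} {φ : M ⟶ N} {V : X.Opens} (h : LocSurj φ V) :
    Epi ((Scheme.Modules.restrictFunctor V.ι).map φ) := by
  apply epi_of_locally_surj
  intro U₀ s y hy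
  obtain ⟨V'', hle, hy'', t, ht⟩ := h (V.ι ''ᵁ U₀) (Scheme.Opens.ι_image_le V U₀)
    (show Γ(N, V.ι ''ᵁ U₀) from s) y.1 ⟨y, hy, rfl⟩
  have hVV : V'' ≤ V := hle.trans (Scheme.Opens.ι_image_le V U₀)
  have him := image_preimage_of_le hVV
  have hle' : V.ι ⁻¹ᵁ V'' ≤ U₀ := by
    intro z hz
    obtain ⟨z', hz', e⟩ := hle hz
    have : z' = z := V.ι.isOpenEmbedding.injective e
    exact this ▸ hz'
  refine ⟨V.ι ⁻¹ᵁ V'', hle', hy'', rs M him.le t, ?_⟩
  have h1 : ap φ (V.ι ''ᵁ (V.ι ⁻¹ᵁ V'')) (rs M him.le t) = rs N him.le (ap φ V'' t) :=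
    ap_rs φ him.le t
  rw [ht, rs_rs] at h1
  exact h1

lemma isFF_pow {A : X.Modules} (hA : IsFF A) (n : ℕ) : IsFF (⨁ fun _ : Fin n => A) := by
  induction n with
  | zero =>
    apply isFF_of_isZero
    rw [IsZero.iff_id_eq_zero]
    ext i
    exact i.elim0
  | succ n ih =>
    exact (ih.biprod (hA.of_iso (biproductUniqueIso (fun _ : Fin 1 => A)).symm)).of_iso
      (biprodFin A n 1)

lemma isFF_restrict_LU (V : X.Opens) :
    IsFF ((Scheme.Modules.restrictFunctor V.ι).obj (LU V)) := by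
  obtain ⟨e⟩ := exists_iso_free (isBasisOn_gen V)
  exact (isFF_FR V.toScheme 1).of_iso e.symm

lemma isFF_restrict_pow (V : X.Opens) (n : ℕ) :
    IsFF ((Scheme.Modules.restrictFunctor V.ι).obj (⨁ fun _ : Fin n => LU V)) :=
  (isFF_pow (isFF_restrict_LU V) n).of_iso
    ((Scheme.Modules.restrictFunctor V.ι).mapBiproduct (fun _ : Fin n => LU V)).symm

/-- Generators lift locally along epimorphisms. -/
theorem exists_locSurj {Z H : X.Modules} (π : Z ⟶ H) [Epi π] (hH : CohAll H) (x : X) :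
    ∃ (V : X.Opens) (_ : x ∈ V) (n : ℕ) (ζ : (⨁ fun _ : Fin n => LU V) ⟶ Z),
      LocSurj (ζ ≫ π) V := by
  obtain ⟨U, hU, hxU, -⟩ := exists_affine_le (V := (⊤ : X.Opens)) (x := x) trivial
  obtain ⟨hq, hf⟩ := hH U hU
  obtain ⟨n, s, hs⟩ := Module.Finite.exists_fin (R := Γ(X, U)) (M := Γ(H, U))
  choose V₁ hV₁ hx₁ z hz using fun i => locally_surj_of_epi π U (s i) x hxU
  let V : X.Opens := (Finset.univ.inf V₁) ⊓ U
  have hVi : ∀ i, V ≤ V₁ i := fun i => inf_le_left.trans (Finset.inf_le (Finset.mem_univ i))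
  have hVU : V ≤ U := inf_le_right
  have hxV : x ∈ V := by
    refine ⟨?_, hxU⟩
    rw [Opens.coe_finset_inf]
    simp only [Finset.inf_set_eq_iInter, Set.mem_iInter]
    intro i _
    exact hx₁ i
  let ζ : (⨁ fun _ : Fin n => LU V) ⟶ Z := biproduct.desc fun i => secHom (rs Z (hVi i) (z i))
  refine ⟨V, hxV, n, ζ, ?_⟩
  intro V' hV' t y hy
  obtain ⟨g, hg, hyg⟩ := hU.exists_basicOpen_le (V := V') ⟨y, hy⟩ (hVU (hV' hy))
  have hgV : X.basicOpen g ≤ V := hg.trans hV'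
  obtain ⟨k, r, hr⟩ := hq.ext U hU le_rfl g (rs H hg t)
  have hr' : r ∈ Submodule.span Γ(X, U) (Set.range s) := by rw [hs]; trivial
  obtain ⟨a, ha⟩ := (Submodule.mem_span_range_iff_exists_fun _).1 hr'
  obtain ⟨v, hv⟩ := (isUnit_ro_basicOpen g).exists_left_inv
  refine ⟨X.basicOpen g, hg, hyg, ∑ i, (v ^ k * ro (X.basicOpen_le g) (a i)) •
    ap (biproduct.ι (fun _ : Fin n => LU V) i) _ (rs (LU V) hgV (gen V)), ?_⟩
  have key : ∀ i, ap (ζ ≫ π) (X.basicOpen g) (ap (biproduct.ι (fun _ : Fin n => LU V) i) _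
      (rs (LU V) hgV (gen V))) = rs H (X.basicOpen_le g) (s i) := by
    intro i
    rw [← ap_comp, biproduct.ι_desc_assoc, ap_rs, ap_comp, ap_secHom_gen, ap_rs, hz, rs_rs, rs_rs]
  rw [map_sum]
  have h1 : ∀ i, ap (ζ ≫ π) (X.basicOpen g) ((v ^ k * ro (X.basicOpen_le g) (a i)) •
      ap (biproduct.ι (fun _ : Fin n => LU V) i) _ (rs (LU V) hgV (gen V))) =
      v ^ k • rs H (X.basicOpen_le g) (a i • s i) := by
    intro i
    rw [map_smul, key, mul_smul, rs_smul]
  rw [Finset.sum_congr rfl fun i _ => h1 i, ← Finset.smul_sum, ← map_sum, ha, hr, smul_smul,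
    ← mul_pow, hv, one_pow, one_smul]

/-- Near every point a coherent cohomology module is killed by a map from a free module. -/
theorem exists_lift (E : DerivedCategory X.Modules) (b : ℤ) (hb : CohAll (Hh b E)) (x : X) :
    ∃ (V : X.Opens) (_ : x ∈ V) (T : Triangle (DerivedCategory V.toScheme.Modules))
      (F : V.toScheme.Modules), T ∈ (distTriang (DerivedCategory V.toScheme.Modules)) ∧ IsFF F ∧
      Nonempty (T.obj₁ ≅ (DerivedCategory.singleFunctor V.toScheme.Modules b).obj F) ∧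
      Nonempty (T.obj₂ ≅ (resD V.ι).obj E) ∧ IsZero (Hh b T.obj₃) := by
  let L := DerivedCategory.Q.objPreimage E
  let e : DerivedCategory.Q.obj L ≅ E := DerivedCategory.Q.objObjPreimageIso E
  have hH : CohAll (L.homology b) := hb.of_iso
    ((DerivedCategory.homologyFunctor X.Modules b).mapIso e.symm ≪≫
      (DerivedCategory.homologyFunctorFactors X.Modules b).app L)
  obtain ⟨V, hxV, n, ζ, hζ⟩ := exists_locSurj (L.homologyπ b) hH x
  obtain ⟨T, hT, ⟨e₁⟩, ⟨e₂⟩, h₃⟩ := exists_kill (Scheme.Modules.restrictFunctor V.ι) L b _ ζ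
    hζ.epi
  exact ⟨V, hxV, T, _, hT, isFF_restrict_pow V n, ⟨e₁⟩, ⟨e₂ ≪≫ (resD V.ι).mapIso e⟩, h₃⟩

end Pool.Agent.N878.Cusp
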