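import Pool.Agent.N878.Cusp.Van
import Pool.Agent.N878.Cusp.Coh

/-!
Objects built from finite free modules in degrees at least `a`.
-/

set_option autoImplicit false

universe u

open CategoryTheory Limits TopologicalSpace AlgebraicGeometry Opposite Pretriangulated

namespace Pool.Agent.N878.Cusp

open Pool.Agent.W506 Pool.Agent.W456 Pool.Agent.R924

attribute [local instance] HasDerivedCategory.standard Abelian.hasFiniteBiproducts

/-- Objects built from finite free modules in degrees at least `a` by extensions. -/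
inductive PQ (a : ℤ) : ∀ {W : Scheme.{u}}, DerivedCategory W.Modules → Prop
  | base {W : Scheme.{u}} (Z : DerivedCategory W.Modules) (F : W.Modules) (hF : IsFF F) (i : ℤ)
      (hi : a ≤ i) (e : Nonempty (Z ≅ (DerivedCategory.singleFunctor W.Modules i).obj F)) : PQ a Z
  | ext {W : Scheme.{u}} (T : Triangle (DerivedCategory W.Modules))
      (hT : T ∈ distTriang (DerivedCategory W.Modules)) (h₁ : PQ a T.obj₁) (h₃ : PQ a T.obj₃) :
      PQ a T.obj₂

variable {a : ℤ}

theorem PQ.res {W : Scheme.{u}} {Z : DerivedCategory W.Modules} (h : PQ a Z) :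
    ∀ {W' : Scheme.{u}} (g : W' ⟶ W) [IsOpenImmersion g], PQ a ((resD g).obj Z) := by
  induction h with
  | base Z F hF i hi e =>
    intro W' g hg
    obtain ⟨e⟩ := e
    obtain ⟨e'⟩ := mapD_single (Scheme.Modules.restrictFunctor g) F i
    exact PQ.base _ _ (hF.restrict g) i hi ⟨(resD g).mapIso e ≪≫ e'⟩
  | ext T hT h₁ h₃ ih₁ ih₃ =>
    intro W' g hg
    exact PQ.ext _ ((resD g).map_distinguished _ hT) (ih₁ g) (ih₃ g)

theorem PQ.coneGood {W : Scheme.{u}} {Z : DerivedCategory W.Modules} (h : PQ a Z) :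
    ConeGood W Z := by
  induction h with
  | base Z F hF i hi e =>
    obtain ⟨e⟩ := e
    have h1 := (ConeGood _).le_shift (-i) _ (coneGood_isFF hF)
    exact (ConeGood _).prop_of_iso (e ≪≫ singleIsoShift F i).symm h1
  | ext T hT h₁ h₃ ih₁ ih₃ =>
    exact (ConeGood _).ext_of_isTriangulatedClosed₂ T hT ih₁ ih₃

theorem finProj_sF {W Y : Scheme.{u}} (f : W ⟶ Y) [IsOpenImmersion f] (w : W) {F : W.Modules}
    (hF : IsFF F) : Module.Finite (Y.presheaf.stalk (f w)) ((sF f w).obj F) ∧
      Module.Projective (Y.presheaf.stalk (f w)) ((sF f w).obj F) := by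
  obtain ⟨n, ⟨e⟩⟩ := hF
  have h := finProj_sF_unit f w n
  exact ⟨finite_of_iso ((sF f w).mapIso e.symm) h.1, proj_of_iso ((sF f w).mapIso e.symm) h.2⟩

theorem PQ.van {W : Scheme.{u}} {Z : DerivedCategory W.Modules} (h : PQ a Z) :
    ∀ {Y : Scheme.{u}} (f : W ⟶ Y) [IsOpenImmersion f] (w : W),
      Van ((sF f w).mapDerivedCategory.obj Z) a := by
  induction h with
  | base Z F hF i hi e =>
    intro Y f hf w
    obtain ⟨e⟩ := e
    obtain ⟨e'⟩ := mapD_single (sF f w) F i
    obtain ⟨h1, h2⟩ := finProj_sF f w hF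
    exact (van_single h1 h2 i hi).of_iso ((sF f w).mapDerivedCategory.mapIso e ≪≫ e').symm
  | ext T hT h₁ h₃ ih₁ ih₃ =>
    intro Y f hf w
    exact Van.mid _ ((sF f w).mapDerivedCategory.map_distinguished _ hT) (ih₁ f w) (ih₃ f w)

end Pool.Agent.N878.Cusp
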