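import Pool.Agent.N878.Cusp.Lift

/-!
Coherent complexes are locally modules in one degree, up to finite free modules in higher degrees.
-/

set_option autoImplicit false

universe v u

open CategoryTheory Limits TopologicalSpace AlgebraicGeometry Opposite Pretriangulated
open ZeroObject

namespace Pool.Agent.N878.Cusp

open Pool.Agent.W506 Pool.Agent.W456 Pool.Agent.R924

set_option backward.isDefEq.respectTransparency false

/-- Two composable distinguished triangles. -/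
theorem octa {C : Type u} [Category.{v} C] [Preadditive C] [HasZeroObject C] [HasShift C ℤ]
    [∀ n : ℤ, (shiftFunctor C n).Additive] [Pretriangulated C] [IsTriangulated C]
    (T₁ T₂ : Triangle C) (h₁ : T₁ ∈ distTriang C) (h₂ : T₂ ∈ distTriang C)
    (e : T₁.obj₂ ≅ T₂.obj₁) :
    ∃ T T' : Triangle C, T ∈ (distTriang C) ∧ T' ∈ (distTriang C) ∧ T.obj₁ = T₁.obj₁ ∧
      T.obj₂ = T₂.obj₂ ∧ T'.obj₁ = T₁.obj₃ ∧ T'.obj₂ = T.obj₃ ∧ T'.obj₃ = T₂.obj₃ := by
  let D' : Triangle C := Triangle.mk (T₁.mor₁ ≫ e.hom) (e.inv ≫ T₁.mor₂) T₁.mor₃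
  have hD' : D' ∈ distTriang C := by
    refine isomorphic_distinguished _ h₁ _ (Triangle.isoMk _ _ (Iso.refl _) e.symm (Iso.refl _)
      ?_ ?_ ?_)
    · change (T₁.mor₁ ≫ e.hom) ≫ e.inv = 𝟙 _ ≫ T₁.mor₁
      rw [Category.assoc, Iso.hom_inv_id, Category.comp_id, Category.id_comp]
    · change (e.inv ≫ T₁.mor₂) ≫ 𝟙 _ = e.inv ≫ T₁.mor₂
      rw [Category.comp_id]
    · change T₁.mor₃ ≫ (shiftFunctor C (1 : ℤ)).map (𝟙 T₁.obj₁) = 𝟙 _ ≫ T₁.mor₃
      rw [CategoryTheory.Functor.map_id, Category.comp_id, Category.id_comp]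
  obtain ⟨Z, v, w, h13⟩ := distinguished_cocone_triangle (D'.mor₁ ≫ T₂.mor₁)
  let o := Triangulated.someOctahedron (u₁₂ := D'.mor₁) (u₂₃ := T₂.mor₁) rfl hD' h₂ h13
  exact ⟨_, Triangle.mk o.m₁ o.m₃ _, h13, o.mem, rfl, rfl, rfl, rfl, rfl⟩

attribute [local instance] HasDerivedCategory.standard Abelian.hasFiniteBiproducts

lemma isZero_Hh_single {W : Scheme.{u}} (F : W.Modules) {b i : ℤ} (h : i ≠ b) :
    IsZero (Hh i ((DerivedCategory.singleFunctor W.Modules b).obj F)) :=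
  (HomologicalComplex.isZero_single_obj_homology _ _ _ _ h).of_iso
    ((DerivedCategory.homologyFunctor W.Modules i).mapIso
      ((DerivedCategory.singleFunctorIsoCompQ W.Modules b).app F) ≪≫
      (DerivedCategory.homologyFunctorFactors W.Modules i).app _)

lemma cohAll_Hh_single {W : Scheme.{u}} {F : W.Modules} (hF : CohAll F) (b i : ℤ) :
    CohAll (Hh i ((DerivedCategory.singleFunctor W.Modules b).obj F)) := by
  by_cases h : i = b
  · subst h
    exact hF.of_iso (hhSingle F i).symm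
  · exact cohAll_of_isZero (isZero_Hh_single F h)

lemma cohAll_Hh_res {W : Scheme.{u}} (E : DerivedCategory W.Modules) (i : ℤ)
    (h : CohAll (Hh i E)) (V : W.Opens) : CohAll (Hh i ((resD V.ι).obj E)) := by
  obtain ⟨e⟩ := mapD_homology (Scheme.Modules.restrictFunctor V.ι) E i
  exact (cohAll_restrict h V).of_iso e.symm

lemma isZero_Hh_res {W : Scheme.{u}} (E : DerivedCategory W.Modules) (i : ℤ)
    (h : IsZero (Hh i E)) (V : W.Opens) : IsZero (Hh i ((resD V.ι).obj E)) := by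
  obtain ⟨e⟩ := mapD_homology (Scheme.Modules.restrictFunctor V.ι) E i
  exact (Functor.map_isZero _ h).of_iso e

lemma isZero_cone {W : Scheme.{u}} (T : Triangle (DerivedCategory W.Modules))
    (hT : T ∈ distTriang (DerivedCategory W.Modules)) (i : ℤ) (h₂ : IsZero (Hh i T.obj₂))
    (h₁ : IsZero (Hh (i + 1) T.obj₁)) : IsZero (Hh i T.obj₃) :=
  (DerivedCategory.HomologySequence.exact₃ T hT i (i + 1) rfl).isZero_X₂
    (h₂.eq_of_src _ _) (h₁.eq_of_tgt _ _)

/-- Near a point a complex with coherent cohomology in degrees between `a` and `a + c` is a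
module in degree `a`, up to finite free modules in degrees at least `a`. -/
theorem star (a : ℤ) (c : ℕ) : ∀ {W : Scheme.{u}} [IsLocallyNoetherian W] (w : W)
    (E : DerivedCategory W.Modules) (_ : ∀ i, CohAll (Hh i E)) (_ : ∀ i, i < a → IsZero (Hh i E))
    (_ : ∀ i, a + c < i → IsZero (Hh i E)),
    ∃ (W' : Scheme.{u}) (h : W' ⟶ W) (_ : IsOpenImmersion h) (w' : W') (M : W'.Modules)
      (T : Triangle (DerivedCategory W'.Modules)), h w' = w ∧ CohAll M ∧
      T ∈ (distTriang (DerivedCategory W'.Modules)) ∧ Nonempty (T.obj₁ ≅ (resD h).obj E) ∧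
      Nonempty (T.obj₂ ≅ (DerivedCategory.singleFunctor W'.Modules a).obj M) ∧ PQ a T.obj₃ := by
  induction c with
  | zero =>
    intro W hW w E hcoh ha hc
    obtain ⟨e⟩ := exists_iso_of_concentrated E a (fun i hi => by
      rcases lt_or_gt_of_ne hi with h | h
      · exact ha i h
      · exact hc i (by simpa using h))
    obtain ⟨e'⟩ := mapD_single (Scheme.Modules.restrictFunctor (⊤ : W.Opens).ι) (Hh a E) a
    refine ⟨(⊤ : W.Opens).toScheme, (⊤ : W.Opens).ι, inferInstance, ⟨w, trivial⟩, _,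
      contractibleTriangle ((resD (⊤ : W.Opens).ι).obj E), rfl, cohAll_restrict (hcoh a) ⊤,
      contractible_distinguished _, ⟨Iso.refl _⟩,
      ⟨(resD (⊤ : W.Opens).ι).mapIso (e ≪≫ (singleIsoShift _ a).symm) ≪≫ e'⟩, ?_⟩
    refine PQ.base _ 0 (isFF_of_isZero (isZero_zero _)) a le_rfl ⟨?_⟩
    exact (isZero_zero _).iso (Functor.map_isZero _ (isZero_zero _))
  | succ c ih =>
    intro W hW w E hcoh ha hc
    obtain ⟨V, hwV, T₁, F, hT₁, hF, ⟨e₁⟩, ⟨e₂⟩, h₃⟩ := exists_lift E (a + c + 1) (hcoh _) w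
    have hVn : IsLocallyNoetherian V.toScheme := isLocallyNoetherian_of_isOpenImmersion V.ι
    have c1 : ∀ i, CohAll (Hh i T₁.obj₁) := fun i =>
      (cohAll_Hh_single (Pool.Agent.R924.IsFF.cohAll hF) _ i).of_iso
        ((DerivedCategory.homologyFunctor _ i).mapIso e₁.symm)
    have c2 : ∀ i, CohAll (Hh i T₁.obj₂) := fun i =>
      (cohAll_Hh_res E i (hcoh i) V).of_iso ((DerivedCategory.homologyFunctor _ i).mapIso e₂.symm)
    have z1 : ∀ i, i ≠ a + c + 1 → IsZero (Hh i T₁.obj₁) := fun i hi =>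
      (isZero_Hh_single F hi).of_iso ((DerivedCategory.homologyFunctor _ i).mapIso e₁)
    have z2 : ∀ i, IsZero (Hh i E) → IsZero (Hh i T₁.obj₂) := fun i hi =>
      (isZero_Hh_res E i hi V).of_iso ((DerivedCategory.homologyFunctor _ i).mapIso e₂)
    obtain ⟨W', h, hh, w', M, T₂, hw', hM, hT₂, ⟨i₁⟩, i₂, hPQ⟩ := ih (⟨w, hwV⟩ : V) T₁.obj₃
      (cohAll_cone T₁ hT₁ c1 c2)
      (fun i hi => isZero_cone T₁ hT₁ i (z2 i (ha i hi)) (z1 _ (by lia)))
      (fun i hi => by
        by_cases hi' : i = a + c + 1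
        · rw [hi']
          exact h₃
        · exact isZero_cone T₁ hT₁ i (z2 i (hc i (by push_cast; lia))) (z1 _ (by lia)))
    obtain ⟨T, T', hT, hT', j₁, j₂, k₁, k₂, k₃⟩ := octa ((resD h).mapTriangle.obj T₁.rotate) T₂
      ((resD h).map_distinguished _ (rot_of_distTriang _ hT₁)) hT₂ i₁.symm
    obtain ⟨r⟩ := resD_comp h V.ι (h ≫ V.ι) rfl E
    refine ⟨W', h ≫ V.ι, inferInstance, w', M, T, ?_, hM, hT, ⟨?_⟩, ?_, ?_⟩
    · rw [Scheme.Hom.comp_apply, hw']
      rfl
    · exact eqToIso j₁ ≪≫ (resD h).mapIso e₂ ≪≫ r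
    · rw [j₂]
      exact i₂
    · rw [← k₂]
      apply PQ.ext T' hT'
      · rw [k₁]
        obtain ⟨e'⟩ := mapD_single (Scheme.Modules.restrictFunctor h) F (a + c)
        refine PQ.base _ _ (hF.restrict h) (a + c) (by lia) ⟨?_⟩
        refine (resD h).mapIso ((shiftFunctor _ (1 : ℤ)).mapIso e₁ ≪≫
          ((DerivedCategory.singleFunctors _).shiftIso 1 (a + c) (a + c + 1) (by ring)).app F) ≪≫ e'
      · rw [k₃]
        exact hPQ

end Pool.Agent.N878.Cusp
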