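import Pool.Agent.W456.Loc6
import Pool.Agent.R924.A1

/-!
Vanishing of morphisms to modules in low degrees; projectivity from the vanishing of extensions.
-/

set_option autoImplicit false

universe w v u

open CategoryTheory CategoryTheory.Limits Pretriangulated

namespace Pool.Agent.N878.Cusp

open Pool.Agent.W456 Pool.Agent.R924

noncomputable section

variable {R : Type u} [CommRing R] [HasDerivedCategory.{w} (ModuleCat.{u} R)]

/-- The module `N` in degree `n`. -/
abbrev sn (n : ℤ) (N : ModuleCat.{u} R) : DerivedCategory (ModuleCat.{u} R) :=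
  (DerivedCategory.singleFunctor (ModuleCat.{u} R) n).obj N

/-- No morphisms to modules placed in degrees below `a`. -/
def Van (A : DerivedCategory (ModuleCat.{u} R)) (a : ℤ) : Prop :=
  ∀ (n : ℤ) (_ : n < a) (N : ModuleCat.{u} R) (φ : A ⟶ sn n N), φ = 0

variable {A B : DerivedCategory (ModuleCat.{u} R)} {a b : ℤ}

theorem Van.of_iso (h : Van A a) (e : A ≅ B) : Van B a := by
  intro n hn N φ
  rw [← cancel_epi e.hom, comp_zero]
  exact h n hn N _

theorem Van.retract (r : Retract B A) (h : Van A a) : Van B a := by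
  intro n hn N φ
  have h1 := h n hn N (r.r ≫ φ)
  have h2 : r.i ≫ r.r ≫ φ = 0 := by rw [h1, comp_zero]
  rwa [r.retract_assoc] at h2

theorem Van.mono (h : Van A a) (hb : b ≤ a) : Van A b := fun n hn => h n (lt_of_lt_of_le hn hb)

theorem Van.mid (T : Triangle (DerivedCategory (ModuleCat.{u} R)))
    (hT : T ∈ distTriang (DerivedCategory (ModuleCat.{u} R))) (h₁ : Van T.obj₁ a)
    (h₃ : Van T.obj₃ a) : Van T.obj₂ a := by
  intro n hn N φ
  obtain ⟨ψ, hψ⟩ := Triangle.yoneda_exact₂ _ hT φ (h₁ n hn N _)
  rw [hψ, h₃ n hn N ψ, comp_zero]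

theorem hom_Q_zero (K L : CochainComplex (ModuleCat.{u} R) ℤ) (hK : K.IsKProjective)
    (h : ∀ i, IsZero (K.X i) ∨ IsZero (L.X i))
    (g : DerivedCategory.Q.obj K ⟶ DerivedCategory.Q.obj L) : g = 0 := by
  obtain ⟨c, hc⟩ := (CochainComplex.IsKProjective.Qh_map_bijective K
    ((HomotopyCategory.quotient _ _).obj L)).surjective
    ((DerivedCategory.quotientCompQhIso _).hom.app K ≫ g ≫
      (DerivedCategory.quotientCompQhIso _).inv.app L)
  obtain ⟨d, rfl⟩ := (HomotopyCategory.quotient _ _).map_surjective c
  have hd : d = 0 := by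
    ext i : 1
    rcases h i with h | h
    · exact h.eq_of_src _ _
    · exact h.eq_of_tgt _ _
  rw [hd, Functor.map_zero, Functor.map_zero] at hc
  rw [← cancel_epi ((DerivedCategory.quotientCompQhIso _).hom.app K),
    ← cancel_mono ((DerivedCategory.quotientCompQhIso _).inv.app L), Category.assoc, ← hc,
    comp_zero, zero_comp]

theorem van_perfIn {P : CochainComplex (ModuleCat.{u} R) ℤ} (hP : PerfIn P a b) :
    Van (DerivedCategory.Q.obj P) a := by
  intro n hn N φ
  have : P.IsStrictlyLE b := by
    rw [CochainComplex.isStrictlyLE_iff]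
    exact hP.le
  have hp : ∀ i, Projective (P.X i) := fun i =>
    (IsProjective.iff_projective (P.X i)).1 (hP.proj i)
  have hK : P.IsKProjective := CochainComplex.isKProjective_of_projective _ b
  let e := (DerivedCategory.singleFunctorIsoCompQ (ModuleCat.{u} R) n).app N
  have h1 : φ ≫ e.hom = 0 := by
    refine hom_Q_zero P _ hK (fun i => ?_) (φ ≫ e.hom)
    rcases lt_or_ge i a with hi | hi
    · exact Or.inl (hP.ge i hi)
    · exact Or.inr (HomologicalComplex.isZero_single_obj_X _ _ _ _ (by lia))
  exact (cancel_mono e.hom).1 (h1.trans zero_comp.symm)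

omit [HasDerivedCategory.{w} (ModuleCat.{u} R)] in
theorem perfIn_sc {F : ModuleCat.{u} R} (h1 : Module.Finite R F) (h2 : Module.Projective R F)
    (i : ℤ) : PerfIn ((HomologicalComplex.single (ModuleCat.{u} R) (ComplexShape.up ℤ) i).obj F)
      i i := by
  have hz : ∀ j : ℤ, j ≠ i → IsZero (((HomologicalComplex.single (ModuleCat.{u} R)
    (ComplexShape.up ℤ) i).obj F).X j) := fun j hj =>
      HomologicalComplex.isZero_single_obj_X _ _ _ _ hj
  let e := HomologicalComplex.singleObjXSelf (ComplexShape.up ℤ) i F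
  refine ⟨fun j => ?_, fun j => ?_, fun j hj => hz j (by lia), fun j hj => hz j (by lia)⟩
  · by_cases hj : j = i
    · subst hj
      exact finite_of_iso e.symm h1
    · exact finite_of_isZero (hz j hj)
  · by_cases hj : j = i
    · subst hj
      exact proj_of_iso e.symm h2
    · exact proj_of_isZero (hz j hj)

theorem van_single {F : ModuleCat.{u} R} (h1 : Module.Finite R F) (h2 : Module.Projective R F)
    (i : ℤ) (hi : a ≤ i) : Van (sn i F) a :=
  ((van_perfIn (perfIn_sc h1 h2 i)).of_iso
    ((DerivedCategory.singleFunctorIsoCompQ (ModuleCat.{u} R) i).app F).symm).mono hi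

/-- A module is projective if its first extensions vanish. -/
theorem proj_of_van {M : ModuleCat.{u} R} (h : Van (sn a M) a) : Module.Projective R M := by
  let π : Projective.over M ⟶ M := Projective.π M
  let S : ShortComplex (ModuleCat.{u} R) := ShortComplex.mk (kernel.ι π) π (kernel.condition π)
  have hS : S.ShortExact :=
    { exact := ShortComplex.exact_of_f_is_kernel _ (kernelIsKernel π)
      mono_f := inferInstanceAs (Mono (kernel.ι π))
      epi_g := inferInstanceAs (Epi π) }
  have h0 : hS.singleδ = 0 := by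
    apply (shiftFunctor (DerivedCategory (ModuleCat.{u} R)) (-a)).map_injective
    let e₁ := singleIsoShift M a
    let e₂ := singleIsoShift S.X₁ (a - 1)
    let e₃ := (shiftFunctorAdd' (DerivedCategory (ModuleCat.{u} R)) 1 (-a) (-(a - 1))
      (by ring)).app (sg S.X₁)
    have h1 := h (a - 1) (by lia) S.X₁ (e₁.hom ≫
      (shiftFunctor (DerivedCategory (ModuleCat.{u} R)) (-a)).map hS.singleδ ≫ e₃.inv ≫ e₂.inv)
    rw [Functor.map_zero]
    rw [← cancel_epi e₁.hom, comp_zero, ← cancel_mono (e₃.inv ≫ e₂.inv), zero_comp, Category.assoc]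
    exact h1
  obtain ⟨s, hs⟩ := Triangle.coyoneda_exact₃ _ hS.singleTriangle_distinguished (𝟙 (sg M)) (by
    change 𝟙 _ ≫ hS.singleδ = 0
    rw [h0, comp_zero])
  obtain ⟨σ, rfl⟩ := (DerivedCategory.singleFunctor (ModuleCat.{u} R) 0).map_surjective s
  have h2 : σ ≫ π = 𝟙 M := by
    apply (DerivedCategory.singleFunctor (ModuleCat.{u} R) 0).map_injective
    rw [Functor.map_comp, CategoryTheory.Functor.map_id]
    exact hs.symm
  have h3 : Module.Projective R (Projective.over M : ModuleCat.{u} R) :=
    (IsProjective.iff_projective _).2 (Projective.projective_over M)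
  exact Module.Projective.of_split σ.hom π.hom (congrArg ModuleCat.Hom.hom h2)

end

end Pool.Agent.N878.Cusp
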